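import Pool.Agent.H794.EMT.Main

/-!
# Brick slices

The vertex `(i, j)` of the grid lies in slice `i + j % 2`. If the slices are labelled by
intervals such that these and the resulting intervals of edge labels cover `{1, ..., N}` then the
grid is edge-magic total.
-/

set_option autoImplicit false

namespace Pool.Agent.H794.EMT

open SimpleGraph

/-- Label of the vertex `(i, j)` in terms of the starts `a d` of the slices. -/
def blab (m : ℕ) (a : ℕ → ℕ) (i j : ℕ) : ℕ :=
  if i + j % 2 = 0 ∨ i + j % 2 = m then a (i + j % 2) + j / 2 else a (i + j % 2) + j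

/-- Size of the slice `d`. -/
def vs (m n d : ℕ) : ℕ := if d = 0 then (n + 1) / 2 else if d = m then n / 2 else n

/-- Number of edges between slices `d` and `d + 1`. -/
def es (m n d : ℕ) : ℕ := vs m n d + vs m n (d + 1) - 1

/-- The labeling. -/
def BF (m n : ℕ) (a : ℕ → ℕ) (K : ℕ) : (Fin m × Fin n) ⊕ (grid m n).edgeSet → ℕ :=
  Sum.elim (fun x => blab m a x.1 x.2)
    (fun e => K - Sym2.lift ⟨fun x y : Fin m × Fin n => blab m a x.1 x.2 + blab m a y.1 y.2,
      fun _ _ => Nat.add_comm _ _⟩ e.1)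

/-- The obvious list of the edges of the grid. -/
def edgeList' (m n : ℕ) :
    (Fin (m - 1) × Fin n) ⊕ (Fin m × Fin (n - 1)) → (grid m n).edgeSet :=
  Sum.elim
    (fun p => ⟨s((⟨p.1.1, by omega⟩, ⟨p.2.1, p.2.2⟩), (⟨p.1.1 + 1, by omega⟩, ⟨p.2.1, p.2.2⟩)),
      adj_hor (by omega) p.2.2⟩)
    (fun p => ⟨s((⟨p.1.1, p.1.2⟩, ⟨p.2.1, by omega⟩), (⟨p.1.1, p.1.2⟩, ⟨p.2.1 + 1, by omega⟩)),
      adj_ver p.1.2 (by omega)⟩)

lemma edgeList'_surj (m n : ℕ) : Function.Surjective (edgeList' m n) := by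
  rintro ⟨e, he⟩
  induction e using Sym2.ind with
  | _ x y =>
    obtain ⟨⟨i, hi⟩, ⟨j, hj⟩⟩ := x
    obtain ⟨⟨i', hi'⟩, ⟨j', hj'⟩⟩ := y
    have h : (grid m n).Adj (⟨i, hi⟩, ⟨j, hj⟩) (⟨i', hi'⟩, ⟨j', hj'⟩) := he
    rw [boxProd_adj] at h
    simp only [pathGraph_adj, Fin.mk.injEq] at h
    rcases h with ⟨h | h, rfl⟩ | ⟨h | h, rfl⟩
    · subst h
      exact ⟨Sum.inl (⟨i, by omega⟩, ⟨j, hj⟩), rfl⟩
    · subst h
      refine ⟨Sum.inl (⟨i', by omega⟩, ⟨j, hj⟩), ?_⟩
      apply Subtype.ext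
      exact Sym2.eq_swap
    · subst h
      exact ⟨Sum.inr (⟨i, hi⟩, ⟨j, by omega⟩), rfl⟩
    · subst h
      refine ⟨Sum.inr (⟨i, hi⟩, ⟨j', by omega⟩), ?_⟩
      apply Subtype.ext
      exact Sym2.eq_swap

/-- A labeling of the vertices whose labels and whose values `K - (sum)` on the edges cover
`{1, ..., N}`, `N` the number of vertices and edges, gives an edge-magic total labeling. -/
theorem of_surj (m n : ℕ) (f : (Fin m × Fin n) ⊕ (grid m n).edgeSet → ℕ) (K N : ℕ)
    (hN : N = m * n + ((m - 1) * n + m * (n - 1)))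
    (hf : ∀ (x y : Fin m × Fin n) (h : (grid m n).Adj x y),
      f (Sum.inr ⟨s(x, y), h⟩) = K - (f (Sum.inl x) + f (Sum.inl y)))
    (hs : ∀ x, 1 ≤ x → x ≤ N → ∃ b, f b = x) : IsEdgeMagicTotal (grid m n) := by
  classical
  have hfin : Fintype (grid m n).edgeSet := Fintype.ofFinite _
  have hE : Fintype.card (grid m n).edgeSet ≤ (m - 1) * n + m * (n - 1) := by
    have := Fintype.card_le_of_surjective _ (edgeList'_surj m n)
    simpa [Fintype.card_sum, Fintype.card_prod, Fintype.card_fin] using this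
  have hV : Fintype.card (Fin m × Fin n) = m * n := by simp
  have hc : Fintype.card ((Fin m × Fin n) ⊕ (grid m n).edgeSet) ≤ N := by
    rw [Fintype.card_sum, hV, hN]
    omega
  obtain ⟨hA, hB⟩ := bij_of_surj f N hs hc
  refine ⟨f, K, ?_, ?_⟩
  · rw [Nat.card_eq_fintype_card, ← Fintype.card_sum, hA]
    exact hB
  · intro x y h
    have h1 := hf x y h
    have h2 : f (Sum.inr ⟨s(x, y), h⟩) ∈ Set.Icc 1 N := hB.mapsTo (Set.mem_univ _)
    have h3 := h2.1
    omega

/-- The tiling condition. -/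
def Tiles (m n : ℕ) (a : ℕ → ℕ) (K N : ℕ) : Prop :=
  ∀ x, 1 ≤ x → x ≤ N →
    (∃ d, d ≤ m ∧ a d ≤ x ∧ x < a d + vs m n d) ∨
    (∃ d, d < m ∧ ∃ t, t < es m n d ∧ a d + a (d + 1) + t + x = K)

theorem of_tiles (m n : ℕ) (a : ℕ → ℕ) (K N : ℕ) (hm : 2 ≤ m) (hn : 1 ≤ n)
    (hN : N = m * n + ((m - 1) * n + m * (n - 1))) (ht : Tiles m n a K N) :
    IsEdgeMagicTotal (grid m n) := by
  refine of_surj m n (BF m n a K) K N hN (fun x y h => rfl) ?_
  intro x h1 h2
  rcases ht x h1 h2 with ⟨d, hd, hx1, hx2⟩ | ⟨d, hd, t, htt, hx⟩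
  · obtain ⟨u, rfl⟩ : ∃ u, x = a d + u := ⟨x - a d, by omega⟩
    have hu : u < vs m n d := by omega
    unfold vs at hu
    by_cases d0 : d = 0
    · subst d0
      rw [if_pos rfl] at hu
      refine ⟨Sum.inl (⟨0, by omega⟩, ⟨2 * u, by omega⟩), ?_⟩
      simp only [BF, Sum.elim_inl, blab]
      have e1 : 0 + 2 * u % 2 = 0 := by omega
      have e2 : 2 * u / 2 = u := by omega
      rw [e1, e2, if_pos (Or.inl rfl)]
    · rw [if_neg d0] at hu
      by_cases dm : d = m
      · subst dm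
        rw [if_pos rfl] at hu
        refine ⟨Sum.inl (⟨d - 1, by omega⟩, ⟨2 * u + 1, by omega⟩), ?_⟩
        simp only [BF, Sum.elim_inl, blab]
        have e1 : d - 1 + (2 * u + 1) % 2 = d := by omega
        have e2 : (2 * u + 1) / 2 = u := by omega
        rw [e1, e2, if_pos (Or.inr rfl)]
      · rw [if_neg dm] at hu
        refine ⟨Sum.inl (⟨d - u % 2, by omega⟩, ⟨u, by omega⟩), ?_⟩
        simp only [BF, Sum.elim_inl, blab]
        have e1 : d - u % 2 + u % 2 = d := by omega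
        rw [e1, if_neg (by omega)]
  · unfold es vs at htt
    by_cases d0 : d = 0
    · subst d0
      rw [Nat.zero_add] at hx
      have c2 : (0 : ℕ) + 1 ≠ 0 := by omega
      have c3 : (0 : ℕ) + 1 ≠ m := by omega
      rw [if_pos rfl, if_neg c2, if_neg c3] at htt
      obtain ⟨q, hq | hq | hq⟩ : ∃ q, t = 3 * q ∨ t = 3 * q + 1 ∨ t = 3 * q + 2 :=
        ⟨t / 3, by omega⟩
      · refine ⟨Sum.inr ⟨s((⟨0, by omega⟩, ⟨2 * q, by omega⟩), (⟨0 + 1, by omega⟩,
          ⟨2 * q, by omega⟩)), adj_hor (by omega) (by omega)⟩, ?_⟩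
        simp only [BF, Sum.elim_inr, blab, Sym2.lift_mk]
        have e1 : 0 + 2 * q % 2 = 0 := by omega
        have e2 : 0 + 1 + 2 * q % 2 = 1 := by omega
        have e3 : 2 * q / 2 = q := by omega
        rw [e1, e2, e3, if_pos (Or.inl rfl), if_neg (by omega)]
        omega
      · refine ⟨Sum.inr ⟨s((⟨0, by omega⟩, ⟨2 * q, by omega⟩), (⟨0, by omega⟩,
          ⟨2 * q + 1, by omega⟩)), adj_ver (by omega) (by omega)⟩, ?_⟩
        simp only [BF, Sum.elim_inr, blab, Sym2.lift_mk]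
        have e1 : 0 + 2 * q % 2 = 0 := by omega
        have e2 : 0 + (2 * q + 1) % 2 = 1 := by omega
        have e3 : 2 * q / 2 = q := by omega
        rw [e1, e2, e3, if_pos (Or.inl rfl), if_neg (by omega)]
        omega
      · refine ⟨Sum.inr ⟨s((⟨0, by omega⟩, ⟨2 * q + 1, by omega⟩), (⟨0, by omega⟩,
          ⟨2 * q + 1 + 1, by omega⟩)), adj_ver (by omega) (by omega)⟩, ?_⟩
        simp only [BF, Sum.elim_inr, blab, Sym2.lift_mk]
        have e1 : 0 + (2 * q + 1) % 2 = 1 := by omega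
        have e2 : 0 + (2 * q + 1 + 1) % 2 = 0 := by omega
        have e3 : (2 * q + 1 + 1) / 2 = q + 1 := by omega
        rw [e1, e2, e3, if_neg (by omega), if_pos (Or.inl rfl)]
        omega
    · by_cases dm : d + 1 = m
      · rw [if_neg d0, if_neg (by omega), if_neg (by omega), if_pos dm] at htt
        obtain ⟨q, hq | hq | hq⟩ : ∃ q, t = 3 * q ∨ t = 3 * q + 1 ∨ t = 3 * q + 2 :=
          ⟨t / 3, by omega⟩
        · refine ⟨Sum.inr ⟨s((⟨d, by omega⟩, ⟨2 * q, by omega⟩), (⟨d, by omega⟩,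
            ⟨2 * q + 1, by omega⟩)), adj_ver (by omega) (by omega)⟩, ?_⟩
          simp only [BF, Sum.elim_inr, blab, Sym2.lift_mk]
          have e1 : d + 2 * q % 2 = d := by omega
          have e2 : d + (2 * q + 1) % 2 = d + 1 := by omega
          have e3 : (2 * q + 1) / 2 = q := by omega
          rw [e1, e2, e3, if_neg (by omega), if_pos (Or.inr dm)]
          omega
        · refine ⟨Sum.inr ⟨s((⟨d - 1, by omega⟩, ⟨2 * q + 1, by omega⟩), (⟨d - 1 + 1, by omega⟩,
            ⟨2 * q + 1, by omega⟩)), adj_hor (by omega) (by omega)⟩, ?_⟩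
          simp only [BF, Sum.elim_inr, blab, Sym2.lift_mk]
          have e1 : d - 1 + (2 * q + 1) % 2 = d := by omega
          have e2 : d - 1 + 1 + (2 * q + 1) % 2 = d + 1 := by omega
          have e3 : (2 * q + 1) / 2 = q := by omega
          rw [e1, e2, e3, if_neg (by omega), if_pos (Or.inr dm)]
          omega
        · refine ⟨Sum.inr ⟨s((⟨d, by omega⟩, ⟨2 * q + 1, by omega⟩), (⟨d, by omega⟩,
            ⟨2 * q + 1 + 1, by omega⟩)), adj_ver (by omega) (by omega)⟩, ?_⟩
          simp only [BF, Sum.elim_inr, blab, Sym2.lift_mk]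
          have e1 : d + (2 * q + 1) % 2 = d + 1 := by omega
          have e2 : d + (2 * q + 1 + 1) % 2 = d := by omega
          have e3 : (2 * q + 1) / 2 = q := by omega
          rw [e1, e2, e3, if_pos (Or.inr dm), if_neg (by omega)]
          omega
      · rw [if_neg d0, if_neg (by omega), if_neg (by omega), if_neg dm] at htt
        obtain ⟨q, hq | hq⟩ := Nat.even_or_odd' t
        · refine ⟨Sum.inr ⟨s((⟨d - q % 2, by omega⟩, ⟨q, by omega⟩), (⟨d - q % 2 + 1, by omega⟩,
            ⟨q, by omega⟩)), adj_hor (by omega) (by omega)⟩, ?_⟩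
          simp only [BF, Sum.elim_inr, blab, Sym2.lift_mk]
          have e1 : d - q % 2 + q % 2 = d := by omega
          have e2 : d - q % 2 + 1 + q % 2 = d + 1 := by omega
          rw [e1, e2, if_neg (by omega), if_neg (by omega)]
          omega
        · refine ⟨Sum.inr ⟨s((⟨d, by omega⟩, ⟨q, by omega⟩), (⟨d, by omega⟩,
            ⟨q + 1, by omega⟩)), adj_ver (by omega) (by omega)⟩, ?_⟩
          simp only [BF, Sum.elim_inr, blab, Sym2.lift_mk]
          rcases Nat.mod_two_eq_zero_or_one q with hq2 | hq2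
          · have e1 : d + q % 2 = d := by omega
            have e2 : d + (q + 1) % 2 = d + 1 := by omega
            rw [e1, e2, if_neg (by omega), if_neg (by omega)]
            omega
          · have e1 : d + q % 2 = d + 1 := by omega
            have e2 : d + (q + 1) % 2 = d := by omega
            rw [e1, e2, if_neg (by omega), if_neg (by omega)]
            omega

end Pool.Agent.H794.EMT
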