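import Mathlib

/-!
# Edge-magic total graphs
-/

set_option autoImplicit false

namespace Pool.Agent.H794.EMT

/-- `G` is edge-magic total: there are a bijection `f` from the vertices and edges of `G` onto
`{1, ..., v + e}` and a constant `k` with `f x + f (xy) + f y = k` for every edge `xy`. -/
def IsEdgeMagicTotal {V : Type} [Fintype V] (G : SimpleGraph V) : Prop :=
  ∃ (f : V ⊕ G.edgeSet → ℕ) (k : ℕ),
    Set.BijOn f Set.univ (Set.Icc 1 (Fintype.card V + Nat.card G.edgeSet)) ∧
    ∀ (x y : V) (h : G.Adj x y),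
      f (Sum.inl x) + f (Sum.inr ⟨s(x, y), h⟩) + f (Sum.inl y) = k

end Pool.Agent.H794.EMT
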