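import Pool.Agent.H794.EMT.Defs

/-!
# Edge-magic total labelings of grids with exactly one even side

For `m` even and `n` odd an explicit edge-magic total labeling of `P_m □ P_n` is given.
-/

set_option autoImplicit false

namespace Pool.Agent.H794.EMT

open SimpleGraph

/-- The label of the vertex `(i, j)` for `m = 2 g + 2`, `n = 2 r + 1`. -/
def lab (g r i j : ℕ) : ℕ :=
  1 + (if i % 2 = 0 then i / 2 else 3 * g + 2 + i / 2) +
    (6 * g + 5) * (if (i + j) % 2 = 0 then j / 2 else if j % 2 = 0 then r + j / 2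
      else r + 1 + j / 2)

/-- The magic constant. -/
def kon (g r : ℕ) : ℕ := 3 * r * (6 * g + 5) + 6 * g + 6

/-- The number of labels. -/
def num (g r : ℕ) : ℕ := 2 * r * (6 * g + 5) + 4 * g + 3

lemma lab_ee (g r t b : ℕ) : lab g r (2 * t) (2 * b) = 1 + t + (6 * g + 5) * b := by
  unfold lab
  rw [if_pos (by omega), if_pos (by omega)]
  have h1 : 2 * t / 2 = t := by omega
  have h2 : 2 * b / 2 = b := by omega
  rw [h1, h2]

lemma lab_eo (g r t b : ℕ) :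
    lab g r (2 * t) (2 * b + 1) = 1 + t + (6 * g + 5) * (r + 1 + b) := by
  unfold lab
  rw [if_pos (by omega), if_neg (by omega), if_neg (by omega)]
  have h1 : 2 * t / 2 = t := by omega
  have h2 : (2 * b + 1) / 2 = b := by omega
  rw [h1, h2]

lemma lab_oe (g r t b : ℕ) :
    lab g r (2 * t + 1) (2 * b) = 1 + (3 * g + 2 + t) + (6 * g + 5) * (r + b) := by
  unfold lab
  rw [if_neg (by omega), if_neg (by omega), if_pos (by omega)]
  have h1 : (2 * t + 1) / 2 = t := by omega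
  have h2 : 2 * b / 2 = b := by omega
  rw [h1, h2]

lemma lab_oo (g r t b : ℕ) :
    lab g r (2 * t + 1) (2 * b + 1) = 1 + (3 * g + 2 + t) + (6 * g + 5) * b := by
  unfold lab
  rw [if_neg (by omega), if_pos (by omega)]
  have h1 : (2 * t + 1) / 2 = t := by omega
  have h2 : (2 * b + 1) / 2 = b := by omega
  rw [h1, h2]

lemma hor (g r i j : ℕ) :
    lab g r i j + lab g r (i + 1) j = 3 * g + 4 + i + (6 * g + 5) * (r + j) := by
  obtain ⟨t, rfl | rfl⟩ := Nat.even_or_odd' i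
  · obtain ⟨b, rfl | rfl⟩ := Nat.even_or_odd' j
    · rw [lab_ee, lab_oe]; ring
    · rw [lab_eo, lab_oo]; ring
  · obtain ⟨b, rfl | rfl⟩ := Nat.even_or_odd' j
    · rw [show 2 * t + 1 + 1 = 2 * (t + 1) by ring, lab_oe, lab_ee]; ring
    · rw [show 2 * t + 1 + 1 = 2 * (t + 1) by ring, lab_oo, lab_eo]; ring

lemma verE (g r t j : ℕ) :
    lab g r (2 * t) j + lab g r (2 * t) (j + 1) = 2 + 2 * t + (6 * g + 5) * (r + j + 1) := by
  obtain ⟨b, rfl | rfl⟩ := Nat.even_or_odd' j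
  · rw [lab_ee, lab_eo]; ring
  · rw [show 2 * b + 1 + 1 = 2 * (b + 1) by ring, lab_eo, lab_ee]; ring

lemma verO (g r t j : ℕ) :
    lab g r (2 * t + 1) j + lab g r (2 * t + 1) (j + 1) =
      6 * g + 6 + 2 * t + (6 * g + 5) * (r + j) := by
  obtain ⟨b, rfl | rfl⟩ := Nat.even_or_odd' j
  · rw [lab_oe, lab_oo]; ring
  · rw [show 2 * b + 1 + 1 = 2 * (b + 1) by ring, lab_oo, lab_oe]; ring

lemma hor_le {g r i j : ℕ} (hi : i ≤ 2 * g) (hj : j ≤ 2 * r) :
    lab g r i j + lab g r (i + 1) j ≤ kon g r := by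
  rw [hor, kon]
  have : (6 * g + 5) * (r + j) ≤ (6 * g + 5) * (3 * r) := Nat.mul_le_mul_left _ (by omega)
  have h2 : (6 * g + 5) * (3 * r) = 3 * r * (6 * g + 5) := by ring
  omega

lemma ver_le {g r i j : ℕ} (hi : i ≤ 2 * g + 1) (hj : j + 1 ≤ 2 * r) :
    lab g r i j + lab g r i (j + 1) ≤ kon g r := by
  obtain ⟨t, rfl | rfl⟩ := Nat.even_or_odd' i
  · rw [verE, kon]
    have : (6 * g + 5) * (r + j + 1) ≤ (6 * g + 5) * (3 * r) := Nat.mul_le_mul_left _ (by omega)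
    have h2 : (6 * g + 5) * (3 * r) = 3 * r * (6 * g + 5) := by ring
    omega
  · rw [verO, kon]
    have : (6 * g + 5) * (r + j + 1) ≤ (6 * g + 5) * (3 * r) := Nat.mul_le_mul_left _ (by omega)
    have h2 : (6 * g + 5) * (3 * r) = 3 * r * (6 * g + 5) := by ring
    have h3 : (6 * g + 5) * (r + j + 1) = (6 * g + 5) * (r + j) + (6 * g + 5) := by ring
    omega

/-- A surjection onto `{1, ..., N}` from a type with at most `N` elements is a bijection. -/
lemma bij_of_surj {A : Type} [Fintype A] (f : A → ℕ) (N : ℕ)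
    (hs : ∀ x, 1 ≤ x → x ≤ N → ∃ a, f a = x) (hc : Fintype.card A ≤ N) :
    Fintype.card A = N ∧ Set.BijOn f Set.univ (Set.Icc 1 N) := by
  classical
  have hsub : Finset.Icc 1 N ⊆ Finset.univ.image f := by
    intro x hx
    rw [Finset.mem_Icc] at hx
    obtain ⟨a, ha⟩ := hs x hx.1 hx.2
    exact Finset.mem_image.2 ⟨a, Finset.mem_univ _, ha⟩
  have hcI : (Finset.Icc 1 N).card = N := by simp
  have hle : (Finset.univ.image f).card ≤ Fintype.card A := by
    simpa using Finset.card_image_le (s := Finset.univ) (f := f)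
  have heq : Finset.Icc 1 N = Finset.univ.image f :=
    Finset.eq_of_subset_of_card_le hsub (by omega)
  have hcard : (Finset.univ.image f).card = N := by rw [← heq, hcI]
  have hA : Fintype.card A = N := by omega
  have hinj : Function.Injective f := by
    have := Finset.card_image_iff.1 (show (Finset.univ.image f).card = Finset.univ.card by
      rw [hcard, Finset.card_univ, hA])
    intro a b hab
    exact this (Finset.mem_coe.2 (Finset.mem_univ _)) (Finset.mem_coe.2 (Finset.mem_univ _)) hab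
  refine ⟨hA, ?_, hinj.injOn, ?_⟩
  · intro a _
    have : f a ∈ Finset.Icc 1 N := by rw [heq]; exact Finset.mem_image_of_mem _ (Finset.mem_univ _)
    simpa using this
  · intro x hx
    obtain ⟨a, ha⟩ := hs x hx.1 hx.2
    exact ⟨a, Set.mem_univ _, ha⟩

/-- The grid. -/
abbrev grid (m n : ℕ) : SimpleGraph (Fin m × Fin n) := pathGraph m □ pathGraph n

/-- Sum of the labels of the two ends of a pair. -/
def sm (g r : ℕ) : Sym2 (Fin (2 * g + 2) × Fin (2 * r + 1)) → ℕ :=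
  Sym2.lift ⟨fun x y => lab g r x.1 x.2 + lab g r y.1 y.2, fun _ _ =>
    Nat.add_comm _ _⟩

/-- The labeling. -/
def F (g r : ℕ) :
    (Fin (2 * g + 2) × Fin (2 * r + 1)) ⊕ (grid (2 * g + 2) (2 * r + 1)).edgeSet → ℕ :=
  Sum.elim (fun x => lab g r x.1 x.2) (fun e => kon g r - sm g r e.1)

lemma sum_le {g r : ℕ} {x y : Fin (2 * g + 2) × Fin (2 * r + 1)}
    (h : (grid (2 * g + 2) (2 * r + 1)).Adj x y) :
    lab g r x.1 x.2 + lab g r y.1 y.2 ≤ kon g r := by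
  obtain ⟨⟨i, hi⟩, ⟨j, hj⟩⟩ := x
  obtain ⟨⟨i', hi'⟩, ⟨j', hj'⟩⟩ := y
  rw [boxProd_adj] at h
  simp only [pathGraph_adj, Fin.mk.injEq] at h
  simp only
  rcases h with ⟨h | h, rfl⟩ | ⟨h | h, rfl⟩
  · subst h
    exact hor_le (by omega) (by omega)
  · subst h
    rw [Nat.add_comm]
    exact hor_le (by omega) (by omega)
  · subst h
    exact ver_le (by omega) (by omega)
  · subst h
    rw [Nat.add_comm]
    exact ver_le (by omega) (by omega)

lemma adj_hor {m n i j : ℕ} (hi : i + 1 < m) (hj : j < n) :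
    (grid m n).Adj (⟨i, by omega⟩, ⟨j, hj⟩) (⟨i + 1, hi⟩, ⟨j, hj⟩) := by
  rw [boxProd_adj]
  left
  refine ⟨?_, rfl⟩
  rw [pathGraph_adj]
  left
  rfl

lemma adj_ver {m n i j : ℕ} (hi : i < m) (hj : j + 1 < n) :
    (grid m n).Adj (⟨i, hi⟩, ⟨j, by omega⟩) (⟨i, hi⟩, ⟨j + 1, hj⟩) := by
  rw [boxProd_adj]
  right
  refine ⟨?_, rfl⟩
  rw [pathGraph_adj]
  left
  rfl

lemma surj (g r x : ℕ) (h1 : 1 ≤ x) (h2 : x ≤ num g r) : ∃ a, F g r a = x := by
  obtain ⟨ρ, l, hρ, hx⟩ : ∃ ρ l, ρ < 6 * g + 5 ∧ x = (6 * g + 5) * l + ρ + 1 :=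
    ⟨(x - 1) % (6 * g + 5), (x - 1) / (6 * g + 5), Nat.mod_lt _ (by omega), by
      have := Nat.div_add_mod (x - 1) (6 * g + 5)
      omega⟩
  have hl : l ≤ 2 * r := by
    by_contra hcon
    have : (6 * g + 5) * (2 * r + 1) ≤ (6 * g + 5) * l := Nat.mul_le_mul_left _ (by omega)
    have h3 : (6 * g + 5) * (2 * r + 1) = 2 * r * (6 * g + 5) + (6 * g + 5) := by ring
    unfold num at h2
    omega
  have hl2 : 4 * g + 3 ≤ ρ → l + 1 ≤ 2 * r := by
    intro hh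
    by_contra hcon
    have hl3 : l = 2 * r := by omega
    subst hl3
    have h3 : (6 * g + 5) * (2 * r) = 2 * r * (6 * g + 5) := by ring
    unfold num at h2
    omega
  by_cases cA : ρ ≤ g
  · by_cases c1 : l ≤ r
    · refine ⟨Sum.inl (⟨2 * ρ, by omega⟩, ⟨2 * l, by omega⟩), ?_⟩
      simp only [F, Sum.elim_inl]
      rw [lab_ee, hx]; ring
    · obtain ⟨b, rfl⟩ : ∃ b, l = r + 1 + b := ⟨l - (r + 1), by omega⟩
      refine ⟨Sum.inl (⟨2 * ρ, by omega⟩, ⟨2 * b + 1, by omega⟩), ?_⟩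
      simp only [F, Sum.elim_inl]
      rw [lab_eo, hx]; ring
  by_cases cB : ρ ≤ 3 * g + 1
  · obtain ⟨i, hi⟩ : ∃ i, i + ρ = 3 * g + 1 := ⟨3 * g + 1 - ρ, by omega⟩
    obtain ⟨j, hj⟩ : ∃ j, j + l = 2 * r := ⟨2 * r - l, by omega⟩
    refine ⟨Sum.inr ⟨s((⟨i, by omega⟩, ⟨j, by omega⟩), (⟨i + 1, by omega⟩, ⟨j, by omega⟩)),
      adj_hor (by omega) (by omega)⟩, ?_⟩
    simp only [F, Sum.elim_inr, sm, Sym2.lift_mk]
    rw [hor, kon, hx]
    have h3 : (6 * g + 5) * (r + j) + (6 * g + 5) * l = 3 * r * (6 * g + 5) := by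
      rw [← Nat.mul_add, show r + j + l = 3 * r by omega]; ring
    omega
  by_cases cC : ρ ≤ 4 * g + 2
  · obtain ⟨t, ht⟩ : ∃ t, ρ = 3 * g + 2 + t := ⟨ρ - (3 * g + 2), by omega⟩
    by_cases c1 : r ≤ l
    · obtain ⟨b, rfl⟩ : ∃ b, l = r + b := ⟨l - r, by omega⟩
      refine ⟨Sum.inl (⟨2 * t + 1, by omega⟩, ⟨2 * b, by omega⟩), ?_⟩
      simp only [F, Sum.elim_inl]
      rw [lab_oe, hx, ht]; ring
    · refine ⟨Sum.inl (⟨2 * t + 1, by omega⟩, ⟨2 * l + 1, by omega⟩), ?_⟩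
      simp only [F, Sum.elim_inl]
      rw [lab_oo, hx, ht]; ring
  · have hl3 := hl2 (by omega)
    obtain ⟨j, hj⟩ : ∃ j, j + l + 1 = 2 * r := ⟨2 * r - l - 1, by omega⟩
    have h3 : (6 * g + 5) * (r + j + 1) + (6 * g + 5) * l = 3 * r * (6 * g + 5) := by
      rw [← Nat.mul_add, show r + j + 1 + l = 3 * r by omega]; ring
    obtain ⟨b, hb | hb⟩ := Nat.even_or_odd' ρ
    · obtain ⟨t, ht⟩ : ∃ t, 2 * t + ρ = 6 * g + 4 := ⟨3 * g + 2 - b, by omega⟩
      refine ⟨Sum.inr ⟨s((⟨2 * t + 1, by omega⟩, ⟨j, by omega⟩),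
        (⟨2 * t + 1, by omega⟩, ⟨j + 1, by omega⟩)), adj_ver (by omega) (by omega)⟩, ?_⟩
      simp only [F, Sum.elim_inr, sm, Sym2.lift_mk]
      rw [verO, kon, hx]
      have h4 : (6 * g + 5) * (r + j + 1) = (6 * g + 5) * (r + j) + (6 * g + 5) := by ring
      omega
    · obtain ⟨t, ht⟩ : ∃ t, 2 * t + ρ = 6 * g + 3 := ⟨3 * g + 1 - b, by omega⟩
      refine ⟨Sum.inr ⟨s((⟨2 * t, by omega⟩, ⟨j, by omega⟩),
        (⟨2 * t, by omega⟩, ⟨j + 1, by omega⟩)), adj_ver (by omega) (by omega)⟩, ?_⟩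
      simp only [F, Sum.elim_inr, sm, Sym2.lift_mk]
      rw [verE, kon, hx]
      omega

/-- The obvious list of the edges of the grid. -/
def edgeList (g r : ℕ) :
    (Fin (2 * g + 1) × Fin (2 * r + 1)) ⊕ (Fin (2 * g + 2) × Fin (2 * r)) →
      (grid (2 * g + 2) (2 * r + 1)).edgeSet :=
  Sum.elim
    (fun p => ⟨s((⟨p.1.1, by omega⟩, ⟨p.2.1, p.2.2⟩), (⟨p.1.1 + 1, by omega⟩, ⟨p.2.1, p.2.2⟩)),
      adj_hor (by omega) p.2.2⟩)
    (fun p => ⟨s((⟨p.1.1, p.1.2⟩, ⟨p.2.1, by omega⟩), (⟨p.1.1, p.1.2⟩, ⟨p.2.1 + 1, by omega⟩)),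
      adj_ver p.1.2 (by omega)⟩)

lemma edgeList_surj (g r : ℕ) : Function.Surjective (edgeList g r) := by
  rintro ⟨e, he⟩
  induction e using Sym2.ind with
  | _ x y =>
    obtain ⟨⟨i, hi⟩, ⟨j, hj⟩⟩ := x
    obtain ⟨⟨i', hi'⟩, ⟨j', hj'⟩⟩ := y
    have h : (grid (2 * g + 2) (2 * r + 1)).Adj (⟨i, hi⟩, ⟨j, hj⟩) (⟨i', hi'⟩, ⟨j', hj'⟩) := he
    rw [boxProd_adj] at h
    simp only [pathGraph_adj, Fin.mk.injEq] at h
    rcases h with ⟨h | h, rfl⟩ | ⟨h | h, rfl⟩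
    · subst h
      exact ⟨Sum.inl (⟨i, by omega⟩, ⟨j, hj⟩), rfl⟩
    · subst h
      refine ⟨Sum.inl (⟨i', by omega⟩, ⟨j, hj⟩), ?_⟩
      apply Subtype.ext
      exact Sym2.eq_swap
    · subst h
      exact ⟨Sum.inr (⟨i, hi⟩, ⟨j, by omega⟩), rfl⟩
    · subst h
      refine ⟨Sum.inr (⟨i, hi⟩, ⟨j', by omega⟩), ?_⟩
      apply Subtype.ext
      exact Sym2.eq_swap

theorem even_odd (g r : ℕ) : IsEdgeMagicTotal (grid (2 * g + 2) (2 * r + 1)) := by
  classical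
  have hfin : Fintype (grid (2 * g + 2) (2 * r + 1)).edgeSet := Fintype.ofFinite _
  have hE : Fintype.card (grid (2 * g + 2) (2 * r + 1)).edgeSet ≤
      (2 * g + 1) * (2 * r + 1) + (2 * g + 2) * (2 * r) := by
    have := Fintype.card_le_of_surjective _ (edgeList_surj g r)
    simpa [Fintype.card_sum, Fintype.card_prod, Fintype.card_fin] using this
  have hV : Fintype.card (Fin (2 * g + 2) × Fin (2 * r + 1)) = (2 * g + 2) * (2 * r + 1) := by
    simp
  have hnum : (2 * g + 2) * (2 * r + 1) + ((2 * g + 1) * (2 * r + 1) + (2 * g + 2) * (2 * r)) =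
      num g r := by
    unfold num; ring
  have hc : Fintype.card ((Fin (2 * g + 2) × Fin (2 * r + 1)) ⊕
      (grid (2 * g + 2) (2 * r + 1)).edgeSet) ≤ num g r := by
    rw [Fintype.card_sum, hV, ← hnum]
    omega
  obtain ⟨hA, hB⟩ := bij_of_surj (F g r) (num g r) (surj g r) hc
  refine ⟨F g r, kon g r, ?_, ?_⟩
  · rw [Nat.card_eq_fintype_card, ← Fintype.card_sum, hA]
    exact hB
  · intro x y h
    have := sum_le h
    simp only [F, Sum.elim_inl, Sum.elim_inr, sm, Sym2.lift_mk]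
    omega

/-- Being edge-magic total is invariant under isomorphism. -/
theorem of_iso {V W : Type} [Fintype V] [Fintype W] {G : SimpleGraph V} {H : SimpleGraph W}
    (e : G ≃g H) (hG : IsEdgeMagicTotal G) : IsEdgeMagicTotal H := by
  obtain ⟨f, k, hf, hk⟩ := hG
  let E : W ⊕ H.edgeSet ≃ V ⊕ G.edgeSet :=
    Equiv.sumCongr e.toEquiv.symm e.symm.mapEdgeSet
  refine ⟨f ∘ E, k, ?_, ?_⟩
  · have h1 : Fintype.card W = Fintype.card V := Fintype.card_congr e.toEquiv.symm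
    have h2 : Nat.card H.edgeSet = Nat.card G.edgeSet := Nat.card_congr e.symm.mapEdgeSet
    rw [h1, h2]
    exact hf.comp (Set.bijOn_univ.2 E.bijective)
  · intro x y h
    have h' : G.Adj (e.symm x) (e.symm y) := e.symm.map_adj_iff.2 h
    exact hk _ _ h'

/-- The main theorem. -/
theorem main (m n : ℕ) (hm : 1 ≤ m) (hn : 1 ≤ n) (h : Odd (m + n)) :
    IsEdgeMagicTotal (pathGraph m □ pathGraph n) := by
  rcases Nat.even_or_odd m with he | ho
  · have hn' : Odd n := by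
      rcases Nat.even_or_odd n with h2 | h2
      · exact absurd (he.add h2) (Nat.not_even_iff_odd.2 h)
      · exact h2
    obtain ⟨a, ha⟩ := he
    obtain ⟨r, rfl⟩ := hn'
    obtain ⟨g, rfl⟩ : ∃ g, m = 2 * g + 2 := ⟨a - 1, by omega⟩
    exact even_odd g r
  · have hn' : Even n := by
      rcases Nat.even_or_odd n with h2 | h2
      · exact h2
      · exact absurd (ho.add_odd h2) (Nat.not_even_iff_odd.2 h)
    obtain ⟨a, ha⟩ := hn'
    obtain ⟨r, rfl⟩ := ho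
    obtain ⟨g, rfl⟩ : ∃ g, n = 2 * g + 2 := ⟨a - 1, by omega⟩
    exact of_iso (boxProdComm _ _) (even_odd g r)

end Pool.Agent.H794.EMT
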