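import Pool.Agent.H794.EMT.Brick

/-!
# Explicit tilings for short sides
-/

set_option autoImplicit false

namespace Pool.Agent.H794.EMT

/-- Starts of the slices for `m = 2`. -/
def A2e (q : ℕ) : ℕ → ℕ
  | 0 => 1
  | 1 => 8 * q - 1
  | _ => 4 * q

lemma tiles2e (q : ℕ) (hq : 1 ≤ q) : Tiles 2 (2 * q) (A2e q) (16 * q - 2) (10 * q - 2) := by
  have a0 : A2e q 0 = 1 := rfl
  have a1 : A2e q 1 = 8 * q - 1 := rfl
  have a2 : A2e q 2 = 4 * q := rfl
  have w0 : vs 2 (2 * q) 0 = 1 * q := by unfold vs; rw [if_pos rfl]; omega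
  have w1 : vs 2 (2 * q) 1 = 2 * q := by unfold vs; rw [if_neg (by omega), if_neg (by omega)]
  have w2 : vs 2 (2 * q) 2 = 1 * q := by unfold vs; rw [if_neg (by omega), if_pos rfl]; omega
  have f0 : es 2 (2 * q) 0 = 3 * q - 1 := by unfold es; rw [w0, w1]; omega
  have f1 : es 2 (2 * q) 1 = 3 * q - 1 := by unfold es; rw [w1, w2]; omega
  intro x h1 h2
  by_cases g0 : x < 1 * q + 1
  · left
    refine ⟨0, by omega, ?_, ?_⟩
    · rw [a0]; omega
    · rw [a0, w0]; omega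
  by_cases g1 : x < 4 * q
  · right
    refine ⟨1, by omega, (16 * q - 2) - (8 * q - 1) - (4 * q) - x, ?_, ?_⟩
    · rw [f1]; omega
    · change A2e q 1 + A2e q 2 + _ + x = _
      rw [a1, a2]; omega
  by_cases g2 : x < 5 * q
  · left
    refine ⟨2, by omega, ?_, ?_⟩
    · rw [a2]; omega
    · rw [a2, w2]; omega
  by_cases g3 : x < 8 * q - 1
  · right
    refine ⟨0, by omega, (16 * q - 2) - (1) - (8 * q - 1) - x, ?_, ?_⟩
    · rw [f0]; omega
    · change A2e q 0 + A2e q 1 + _ + x = _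
      rw [a0, a1]; omega
  · left
    refine ⟨1, by omega, ?_, ?_⟩
    · rw [a1]; omega
    · rw [a1, w1]; omega

theorem emt2e (q : ℕ) (hq : 1 ≤ q) : IsEdgeMagicTotal (grid 2 (2 * q)) :=
  of_tiles 2 (2 * q) _ _ _ (by omega) (by omega) (by omega) (tiles2e q hq)

/-- Starts of the slices for `m = 6`. -/
def A6e (q : ℕ) : ℕ → ℕ
  | 0 => 1
  | 1 => 26 * q - 4
  | 2 => 21 * q - 3
  | 3 => 10 * q - 1
  | 4 => 8 * q - 1
  | 5 => 28 * q - 4
  | _ => 16 * q - 2

lemma tiles6e (q : ℕ) (hq : 1 ≤ q) : Tiles 6 (2 * q) (A6e q) (52 * q - 8) (34 * q - 6) := by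
  have a0 : A6e q 0 = 1 := rfl
  have a1 : A6e q 1 = 26 * q - 4 := rfl
  have a2 : A6e q 2 = 21 * q - 3 := rfl
  have a3 : A6e q 3 = 10 * q - 1 := rfl
  have a4 : A6e q 4 = 8 * q - 1 := rfl
  have a5 : A6e q 5 = 28 * q - 4 := rfl
  have a6 : A6e q 6 = 16 * q - 2 := rfl
  have w0 : vs 6 (2 * q) 0 = 1 * q := by unfold vs; rw [if_pos rfl]; omega
  have w1 : vs 6 (2 * q) 1 = 2 * q := by unfold vs; rw [if_neg (by omega), if_neg (by omega)]
  have w2 : vs 6 (2 * q) 2 = 2 * q := by unfold vs; rw [if_neg (by omega), if_neg (by omega)]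
  have w3 : vs 6 (2 * q) 3 = 2 * q := by unfold vs; rw [if_neg (by omega), if_neg (by omega)]
  have w4 : vs 6 (2 * q) 4 = 2 * q := by unfold vs; rw [if_neg (by omega), if_neg (by omega)]
  have w5 : vs 6 (2 * q) 5 = 2 * q := by unfold vs; rw [if_neg (by omega), if_neg (by omega)]
  have w6 : vs 6 (2 * q) 6 = 1 * q := by unfold vs; rw [if_neg (by omega), if_pos rfl]; omega
  have f0 : es 6 (2 * q) 0 = 3 * q - 1 := by unfold es; rw [w0, w1]; omega
  have f1 : es 6 (2 * q) 1 = 4 * q - 1 := by unfold es; rw [w1, w2]; omega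
  have f2 : es 6 (2 * q) 2 = 4 * q - 1 := by unfold es; rw [w2, w3]; omega
  have f3 : es 6 (2 * q) 3 = 4 * q - 1 := by unfold es; rw [w3, w4]; omega
  have f4 : es 6 (2 * q) 4 = 4 * q - 1 := by unfold es; rw [w4, w5]; omega
  have f5 : es 6 (2 * q) 5 = 3 * q - 1 := by unfold es; rw [w5, w6]; omega
  intro x h1 h2
  by_cases g0 : x < 1 * q + 1
  · left
    refine ⟨0, by omega, ?_, ?_⟩
    · rw [a0]; omega
    · rw [a0, w0]; omega
  by_cases g1 : x < 5 * q
  · right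
    refine ⟨1, by omega, (52 * q - 8) - (26 * q - 4) - (21 * q - 3) - x, ?_, ?_⟩
    · rw [f1]; omega
    · change A6e q 1 + A6e q 2 + _ + x = _
      rw [a1, a2]; omega
  by_cases g2 : x < 8 * q - 1
  · right
    refine ⟨5, by omega, (52 * q - 8) - (28 * q - 4) - (16 * q - 2) - x, ?_, ?_⟩
    · rw [f5]; omega
    · change A6e q 5 + A6e q 6 + _ + x = _
      rw [a5, a6]; omega
  by_cases g3 : x < 10 * q - 1
  · left
    refine ⟨4, by omega, ?_, ?_⟩
    · rw [a4]; omega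
    · rw [a4, w4]; omega
  by_cases g4 : x < 12 * q - 1
  · left
    refine ⟨3, by omega, ?_, ?_⟩
    · rw [a3]; omega
    · rw [a3, w3]; omega
  by_cases g5 : x < 16 * q - 2
  · right
    refine ⟨4, by omega, (52 * q - 8) - (8 * q - 1) - (28 * q - 4) - x, ?_, ?_⟩
    · rw [f4]; omega
    · change A6e q 4 + A6e q 5 + _ + x = _
      rw [a4, a5]; omega
  by_cases g6 : x < 17 * q - 2
  · left
    refine ⟨6, by omega, ?_, ?_⟩
    · rw [a6]; omega
    · rw [a6, w6]; omega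
  by_cases g7 : x < 21 * q - 3
  · right
    refine ⟨2, by omega, (52 * q - 8) - (21 * q - 3) - (10 * q - 1) - x, ?_, ?_⟩
    · rw [f2]; omega
    · change A6e q 2 + A6e q 3 + _ + x = _
      rw [a2, a3]; omega
  by_cases g8 : x < 23 * q - 3
  · left
    refine ⟨2, by omega, ?_, ?_⟩
    · rw [a2]; omega
    · rw [a2, w2]; omega
  by_cases g9 : x < 26 * q - 4
  · right
    refine ⟨0, by omega, (52 * q - 8) - (1) - (26 * q - 4) - x, ?_, ?_⟩
    · rw [f0]; omega
    · change A6e q 0 + A6e q 1 + _ + x = _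
      rw [a0, a1]; omega
  by_cases g10 : x < 28 * q - 4
  · left
    refine ⟨1, by omega, ?_, ?_⟩
    · rw [a1]; omega
    · rw [a1, w1]; omega
  by_cases g11 : x < 30 * q - 4
  · left
    refine ⟨5, by omega, ?_, ?_⟩
    · rw [a5]; omega
    · rw [a5, w5]; omega
  · right
    refine ⟨3, by omega, (52 * q - 8) - (10 * q - 1) - (8 * q - 1) - x, ?_, ?_⟩
    · rw [f3]; omega
    · change A6e q 3 + A6e q 4 + _ + x = _
      rw [a3, a4]; omega

theorem emt6e (q : ℕ) (hq : 1 ≤ q) : IsEdgeMagicTotal (grid 6 (2 * q)) :=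
  of_tiles 6 (2 * q) _ _ _ (by omega) (by omega) (by omega) (tiles6e q hq)

/-- Starts of the slices for `m = 7`. -/
def A7o (q : ℕ) : ℕ → ℕ
  | 0 => 1
  | 1 => 33 * q + 12
  | 2 => 22 * q + 8
  | 3 => 7 * q + 4
  | 4 => 31 * q + 11
  | 5 => 16 * q + 6
  | 6 => 5 * q + 3
  | _ => 39 * q + 14

lemma tiles7o (q : ℕ) : Tiles 7 (2 * q + 1) (A7o q) (60 * q + 22) (40 * q + 13) := by
  have a0 : A7o q 0 = 1 := rfl
  have a1 : A7o q 1 = 33 * q + 12 := rfl
  have a2 : A7o q 2 = 22 * q + 8 := rfl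
  have a3 : A7o q 3 = 7 * q + 4 := rfl
  have a4 : A7o q 4 = 31 * q + 11 := rfl
  have a5 : A7o q 5 = 16 * q + 6 := rfl
  have a6 : A7o q 6 = 5 * q + 3 := rfl
  have a7 : A7o q 7 = 39 * q + 14 := rfl
  have w0 : vs 7 (2 * q + 1) 0 = 1 * q + 1 := by unfold vs; rw [if_pos rfl]; omega
  have w1 : vs 7 (2 * q + 1) 1 = 2 * q + 1 := by unfold vs; rw [if_neg (by omega), if_neg (by omega)]
  have w2 : vs 7 (2 * q + 1) 2 = 2 * q + 1 := by unfold vs; rw [if_neg (by omega), if_neg (by omega)]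
  have w3 : vs 7 (2 * q + 1) 3 = 2 * q + 1 := by unfold vs; rw [if_neg (by omega), if_neg (by omega)]
  have w4 : vs 7 (2 * q + 1) 4 = 2 * q + 1 := by unfold vs; rw [if_neg (by omega), if_neg (by omega)]
  have w5 : vs 7 (2 * q + 1) 5 = 2 * q + 1 := by unfold vs; rw [if_neg (by omega), if_neg (by omega)]
  have w6 : vs 7 (2 * q + 1) 6 = 2 * q + 1 := by unfold vs; rw [if_neg (by omega), if_neg (by omega)]
  have w7 : vs 7 (2 * q + 1) 7 = 1 * q := by unfold vs; rw [if_neg (by omega), if_pos rfl]; omega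
  have f0 : es 7 (2 * q + 1) 0 = 3 * q + 1 := by unfold es; rw [w0, w1]; omega
  have f1 : es 7 (2 * q + 1) 1 = 4 * q + 1 := by unfold es; rw [w1, w2]; omega
  have f2 : es 7 (2 * q + 1) 2 = 4 * q + 1 := by unfold es; rw [w2, w3]; omega
  have f3 : es 7 (2 * q + 1) 3 = 4 * q + 1 := by unfold es; rw [w3, w4]; omega
  have f4 : es 7 (2 * q + 1) 4 = 4 * q + 1 := by unfold es; rw [w4, w5]; omega
  have f5 : es 7 (2 * q + 1) 5 = 4 * q + 1 := by unfold es; rw [w5, w6]; omega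
  have f6 : es 7 (2 * q + 1) 6 = 3 * q := by unfold es; rw [w6, w7]; omega
  intro x h1 h2
  by_cases g0 : x < 1 * q + 2
  · left
    refine ⟨0, by omega, ?_, ?_⟩
    · rw [a0]; omega
    · rw [a0, w0]; omega
  by_cases g1 : x < 5 * q + 3
  · right
    refine ⟨1, by omega, (60 * q + 22) - (33 * q + 12) - (22 * q + 8) - x, ?_, ?_⟩
    · rw [f1]; omega
    · change A7o q 1 + A7o q 2 + _ + x = _
      rw [a1, a2]; omega
  by_cases g2 : x < 7 * q + 4
  · left
    refine ⟨6, by omega, ?_, ?_⟩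
    · rw [a6]; omega
    · rw [a6, w6]; omega
  by_cases g3 : x < 9 * q + 5
  · left
    refine ⟨3, by omega, ?_, ?_⟩
    · rw [a3]; omega
    · rw [a3, w3]; omega
  by_cases g4 : x < 13 * q + 6
  · right
    refine ⟨4, by omega, (60 * q + 22) - (31 * q + 11) - (16 * q + 6) - x, ?_, ?_⟩
    · rw [f4]; omega
    · change A7o q 4 + A7o q 5 + _ + x = _
      rw [a4, a5]; omega
  by_cases g5 : x < 16 * q + 6
  · right
    refine ⟨6, by omega, (60 * q + 22) - (5 * q + 3) - (39 * q + 14) - x, ?_, ?_⟩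
    · rw [f6]; omega
    · change A7o q 6 + A7o q 7 + _ + x = _
      rw [a6, a7]; omega
  by_cases g6 : x < 18 * q + 7
  · left
    refine ⟨5, by omega, ?_, ?_⟩
    · rw [a5]; omega
    · rw [a5, w5]; omega
  by_cases g7 : x < 22 * q + 8
  · right
    refine ⟨3, by omega, (60 * q + 22) - (7 * q + 4) - (31 * q + 11) - x, ?_, ?_⟩
    · rw [f3]; omega
    · change A7o q 3 + A7o q 4 + _ + x = _
      rw [a3, a4]; omega
  by_cases g8 : x < 24 * q + 9
  · left
    refine ⟨2, by omega, ?_, ?_⟩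
    · rw [a2]; omega
    · rw [a2, w2]; omega
  by_cases g9 : x < 27 * q + 10
  · right
    refine ⟨0, by omega, (60 * q + 22) - (1) - (33 * q + 12) - x, ?_, ?_⟩
    · rw [f0]; omega
    · change A7o q 0 + A7o q 1 + _ + x = _
      rw [a0, a1]; omega
  by_cases g10 : x < 31 * q + 11
  · right
    refine ⟨2, by omega, (60 * q + 22) - (22 * q + 8) - (7 * q + 4) - x, ?_, ?_⟩
    · rw [f2]; omega
    · change A7o q 2 + A7o q 3 + _ + x = _
      rw [a2, a3]; omega
  by_cases g11 : x < 33 * q + 12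
  · left
    refine ⟨4, by omega, ?_, ?_⟩
    · rw [a4]; omega
    · rw [a4, w4]; omega
  by_cases g12 : x < 35 * q + 13
  · left
    refine ⟨1, by omega, ?_, ?_⟩
    · rw [a1]; omega
    · rw [a1, w1]; omega
  by_cases g13 : x < 39 * q + 14
  · right
    refine ⟨5, by omega, (60 * q + 22) - (16 * q + 6) - (5 * q + 3) - x, ?_, ?_⟩
    · rw [f5]; omega
    · change A7o q 5 + A7o q 6 + _ + x = _
      rw [a5, a6]; omega
  · left
    refine ⟨7, by omega, ?_, ?_⟩
    · rw [a7]; omega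
    · rw [a7, w7]; omega

theorem emt7o (q : ℕ) : IsEdgeMagicTotal (grid 7 (2 * q + 1)) :=
  of_tiles 7 (2 * q + 1) _ _ _ (by omega) (by omega) (by omega) (tiles7o q)

/-- Starts of the slices for `m = 10`. -/
def A10e (q : ℕ) : ℕ → ℕ
  | 0 => 1
  | 1 => 33 * q - 5
  | 2 => 51 * q - 8
  | 3 => 5 * q
  | 4 => 39 * q - 6
  | 5 => 11 * q - 1
  | 6 => 56 * q - 9
  | 7 => 22 * q - 3
  | 8 => 16 * q - 2
  | 9 => 45 * q - 7
  | _ => 28 * q - 4

lemma tiles10e (q : ℕ) (hq : 1 ≤ q) : Tiles 10 (2 * q) (A10e q) (89 * q - 14) (58 * q - 10) := by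
  have a0 : A10e q 0 = 1 := rfl
  have a1 : A10e q 1 = 33 * q - 5 := rfl
  have a2 : A10e q 2 = 51 * q - 8 := rfl
  have a3 : A10e q 3 = 5 * q := rfl
  have a4 : A10e q 4 = 39 * q - 6 := rfl
  have a5 : A10e q 5 = 11 * q - 1 := rfl
  have a6 : A10e q 6 = 56 * q - 9 := rfl
  have a7 : A10e q 7 = 22 * q - 3 := rfl
  have a8 : A10e q 8 = 16 * q - 2 := rfl
  have a9 : A10e q 9 = 45 * q - 7 := rfl
  have a10 : A10e q 10 = 28 * q - 4 := rfl
  have w0 : vs 10 (2 * q) 0 = 1 * q := by unfold vs; rw [if_pos rfl]; omega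
  have w1 : vs 10 (2 * q) 1 = 2 * q := by unfold vs; rw [if_neg (by omega), if_neg (by omega)]
  have w2 : vs 10 (2 * q) 2 = 2 * q := by unfold vs; rw [if_neg (by omega), if_neg (by omega)]
  have w3 : vs 10 (2 * q) 3 = 2 * q := by unfold vs; rw [if_neg (by omega), if_neg (by omega)]
  have w4 : vs 10 (2 * q) 4 = 2 * q := by unfold vs; rw [if_neg (by omega), if_neg (by omega)]
  have w5 : vs 10 (2 * q) 5 = 2 * q := by unfold vs; rw [if_neg (by omega), if_neg (by omega)]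
  have w6 : vs 10 (2 * q) 6 = 2 * q := by unfold vs; rw [if_neg (by omega), if_neg (by omega)]
  have w7 : vs 10 (2 * q) 7 = 2 * q := by unfold vs; rw [if_neg (by omega), if_neg (by omega)]
  have w8 : vs 10 (2 * q) 8 = 2 * q := by unfold vs; rw [if_neg (by omega), if_neg (by omega)]
  have w9 : vs 10 (2 * q) 9 = 2 * q := by unfold vs; rw [if_neg (by omega), if_neg (by omega)]
  have w10 : vs 10 (2 * q) 10 = 1 * q := by unfold vs; rw [if_neg (by omega), if_pos rfl]; omega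
  have f0 : es 10 (2 * q) 0 = 3 * q - 1 := by unfold es; rw [w0, w1]; omega
  have f1 : es 10 (2 * q) 1 = 4 * q - 1 := by unfold es; rw [w1, w2]; omega
  have f2 : es 10 (2 * q) 2 = 4 * q - 1 := by unfold es; rw [w2, w3]; omega
  have f3 : es 10 (2 * q) 3 = 4 * q - 1 := by unfold es; rw [w3, w4]; omega
  have f4 : es 10 (2 * q) 4 = 4 * q - 1 := by unfold es; rw [w4, w5]; omega
  have f5 : es 10 (2 * q) 5 = 4 * q - 1 := by unfold es; rw [w5, w6]; omega
  have f6 : es 10 (2 * q) 6 = 4 * q - 1 := by unfold es; rw [w6, w7]; omega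
  have f7 : es 10 (2 * q) 7 = 4 * q - 1 := by unfold es; rw [w7, w8]; omega
  have f8 : es 10 (2 * q) 8 = 4 * q - 1 := by unfold es; rw [w8, w9]; omega
  have f9 : es 10 (2 * q) 9 = 3 * q - 1 := by unfold es; rw [w9, w10]; omega
  intro x h1 h2
  by_cases g0 : x < 1 * q + 1
  · left
    refine ⟨0, by omega, ?_, ?_⟩
    · rw [a0]; omega
    · rw [a0, w0]; omega
  by_cases g1 : x < 5 * q
  · right
    refine ⟨1, by omega, (89 * q - 14) - (33 * q - 5) - (51 * q - 8) - x, ?_, ?_⟩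
    · rw [f1]; omega
    · change A10e q 1 + A10e q 2 + _ + x = _
      rw [a1, a2]; omega
  by_cases g2 : x < 7 * q
  · left
    refine ⟨3, by omega, ?_, ?_⟩
    · rw [a3]; omega
    · rw [a3, w3]; omega
  by_cases g3 : x < 11 * q - 1
  · right
    refine ⟨6, by omega, (89 * q - 14) - (56 * q - 9) - (22 * q - 3) - x, ?_, ?_⟩
    · rw [f6]; omega
    · change A10e q 6 + A10e q 7 + _ + x = _
      rw [a6, a7]; omega
  by_cases g4 : x < 13 * q - 1
  · left
    refine ⟨5, by omega, ?_, ?_⟩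
    · rw [a5]; omega
    · rw [a5, w5]; omega
  by_cases g5 : x < 16 * q - 2
  · right
    refine ⟨9, by omega, (89 * q - 14) - (45 * q - 7) - (28 * q - 4) - x, ?_, ?_⟩
    · rw [f9]; omega
    · change A10e q 9 + A10e q 10 + _ + x = _
      rw [a9, a10]; omega
  by_cases g6 : x < 18 * q - 2
  · left
    refine ⟨8, by omega, ?_, ?_⟩
    · rw [a8]; omega
    · rw [a8, w8]; omega
  by_cases g7 : x < 22 * q - 3
  · right
    refine ⟨5, by omega, (89 * q - 14) - (11 * q - 1) - (56 * q - 9) - x, ?_, ?_⟩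
    · rw [f5]; omega
    · change A10e q 5 + A10e q 6 + _ + x = _
      rw [a5, a6]; omega
  by_cases g8 : x < 24 * q - 3
  · left
    refine ⟨7, by omega, ?_, ?_⟩
    · rw [a7]; omega
    · rw [a7, w7]; omega
  by_cases g9 : x < 28 * q - 4
  · right
    refine ⟨8, by omega, (89 * q - 14) - (16 * q - 2) - (45 * q - 7) - x, ?_, ?_⟩
    · rw [f8]; omega
    · change A10e q 8 + A10e q 9 + _ + x = _
      rw [a8, a9]; omega
  by_cases g10 : x < 29 * q - 4
  · left
    refine ⟨10, by omega, ?_, ?_⟩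
    · rw [a10]; omega
    · rw [a10, w10]; omega
  by_cases g11 : x < 33 * q - 5
  · right
    refine ⟨2, by omega, (89 * q - 14) - (51 * q - 8) - (5 * q) - x, ?_, ?_⟩
    · rw [f2]; omega
    · change A10e q 2 + A10e q 3 + _ + x = _
      rw [a2, a3]; omega
  by_cases g12 : x < 35 * q - 5
  · left
    refine ⟨1, by omega, ?_, ?_⟩
    · rw [a1]; omega
    · rw [a1, w1]; omega
  by_cases g13 : x < 39 * q - 6
  · right
    refine ⟨4, by omega, (89 * q - 14) - (39 * q - 6) - (11 * q - 1) - x, ?_, ?_⟩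
    · rw [f4]; omega
    · change A10e q 4 + A10e q 5 + _ + x = _
      rw [a4, a5]; omega
  by_cases g14 : x < 41 * q - 6
  · left
    refine ⟨4, by omega, ?_, ?_⟩
    · rw [a4]; omega
    · rw [a4, w4]; omega
  by_cases g15 : x < 45 * q - 7
  · right
    refine ⟨3, by omega, (89 * q - 14) - (5 * q) - (39 * q - 6) - x, ?_, ?_⟩
    · rw [f3]; omega
    · change A10e q 3 + A10e q 4 + _ + x = _
      rw [a3, a4]; omega
  by_cases g16 : x < 47 * q - 7
  · left
    refine ⟨9, by omega, ?_, ?_⟩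
    · rw [a9]; omega
    · rw [a9, w9]; omega
  by_cases g17 : x < 51 * q - 8
  · right
    refine ⟨7, by omega, (89 * q - 14) - (22 * q - 3) - (16 * q - 2) - x, ?_, ?_⟩
    · rw [f7]; omega
    · change A10e q 7 + A10e q 8 + _ + x = _
      rw [a7, a8]; omega
  by_cases g18 : x < 53 * q - 8
  · left
    refine ⟨2, by omega, ?_, ?_⟩
    · rw [a2]; omega
    · rw [a2, w2]; omega
  by_cases g19 : x < 56 * q - 9
  · right
    refine ⟨0, by omega, (89 * q - 14) - (1) - (33 * q - 5) - x, ?_, ?_⟩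
    · rw [f0]; omega
    · change A10e q 0 + A10e q 1 + _ + x = _
      rw [a0, a1]; omega
  · left
    refine ⟨6, by omega, ?_, ?_⟩
    · rw [a6]; omega
    · rw [a6, w6]; omega

theorem emt10e (q : ℕ) (hq : 1 ≤ q) : IsEdgeMagicTotal (grid 10 (2 * q)) :=
  of_tiles 10 (2 * q) _ _ _ (by omega) (by omega) (by omega) (tiles10e q hq)

/-- Starts of the slices for `m = 8`. -/
def A8e (q : ℕ) : ℕ → ℕ
  | 0 => 1
  | 1 => 44 * q - 7
  | 2 => 18 * q - 2
  | 3 => 5 * q
  | 4 => 27 * q - 4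
  | 5 => 29 * q - 4
  | 6 => 11 * q - 1
  | 7 => 16 * q - 2
  | _ => 35 * q - 5

lemma tiles8e (q : ℕ) (hq : 1 ≤ q) : Tiles 8 (2 * q) (A8e q) (67 * q - 10) (46 * q - 8) := by
  have a0 : A8e q 0 = 1 := rfl
  have a1 : A8e q 1 = 44 * q - 7 := rfl
  have a2 : A8e q 2 = 18 * q - 2 := rfl
  have a3 : A8e q 3 = 5 * q := rfl
  have a4 : A8e q 4 = 27 * q - 4 := rfl
  have a5 : A8e q 5 = 29 * q - 4 := rfl
  have a6 : A8e q 6 = 11 * q - 1 := rfl
  have a7 : A8e q 7 = 16 * q - 2 := rfl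
  have a8 : A8e q 8 = 35 * q - 5 := rfl
  have w0 : vs 8 (2 * q) 0 = 1 * q := by unfold vs; rw [if_pos rfl]; omega
  have w1 : vs 8 (2 * q) 1 = 2 * q := by unfold vs; rw [if_neg (by omega), if_neg (by omega)]
  have w2 : vs 8 (2 * q) 2 = 2 * q := by unfold vs; rw [if_neg (by omega), if_neg (by omega)]
  have w3 : vs 8 (2 * q) 3 = 2 * q := by unfold vs; rw [if_neg (by omega), if_neg (by omega)]
  have w4 : vs 8 (2 * q) 4 = 2 * q := by unfold vs; rw [if_neg (by omega), if_neg (by omega)]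
  have w5 : vs 8 (2 * q) 5 = 2 * q := by unfold vs; rw [if_neg (by omega), if_neg (by omega)]
  have w6 : vs 8 (2 * q) 6 = 2 * q := by unfold vs; rw [if_neg (by omega), if_neg (by omega)]
  have w7 : vs 8 (2 * q) 7 = 2 * q := by unfold vs; rw [if_neg (by omega), if_neg (by omega)]
  have w8 : vs 8 (2 * q) 8 = 1 * q := by unfold vs; rw [if_neg (by omega), if_pos rfl]; omega
  have f0 : es 8 (2 * q) 0 = 3 * q - 1 := by unfold es; rw [w0, w1]; omega
  have f1 : es 8 (2 * q) 1 = 4 * q - 1 := by unfold es; rw [w1, w2]; omega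
  have f2 : es 8 (2 * q) 2 = 4 * q - 1 := by unfold es; rw [w2, w3]; omega
  have f3 : es 8 (2 * q) 3 = 4 * q - 1 := by unfold es; rw [w3, w4]; omega
  have f4 : es 8 (2 * q) 4 = 4 * q - 1 := by unfold es; rw [w4, w5]; omega
  have f5 : es 8 (2 * q) 5 = 4 * q - 1 := by unfold es; rw [w5, w6]; omega
  have f6 : es 8 (2 * q) 6 = 4 * q - 1 := by unfold es; rw [w6, w7]; omega
  have f7 : es 8 (2 * q) 7 = 3 * q - 1 := by unfold es; rw [w7, w8]; omega
  intro x h1 h2
  by_cases g0 : x < 1 * q + 1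
  · left
    refine ⟨0, by omega, ?_, ?_⟩
    · rw [a0]; omega
    · rw [a0, w0]; omega
  by_cases g1 : x < 5 * q
  · right
    refine ⟨1, by omega, (67 * q - 10) - (44 * q - 7) - (18 * q - 2) - x, ?_, ?_⟩
    · rw [f1]; omega
    · change A8e q 1 + A8e q 2 + _ + x = _
      rw [a1, a2]; omega
  by_cases g2 : x < 7 * q
  · left
    refine ⟨3, by omega, ?_, ?_⟩
    · rw [a3]; omega
    · rw [a3, w3]; omega
  by_cases g3 : x < 11 * q - 1
  · right
    refine ⟨4, by omega, (67 * q - 10) - (27 * q - 4) - (29 * q - 4) - x, ?_, ?_⟩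
    · rw [f4]; omega
    · change A8e q 4 + A8e q 5 + _ + x = _
      rw [a4, a5]; omega
  by_cases g4 : x < 13 * q - 1
  · left
    refine ⟨6, by omega, ?_, ?_⟩
    · rw [a6]; omega
    · rw [a6, w6]; omega
  by_cases g5 : x < 16 * q - 2
  · right
    refine ⟨7, by omega, (67 * q - 10) - (16 * q - 2) - (35 * q - 5) - x, ?_, ?_⟩
    · rw [f7]; omega
    · change A8e q 7 + A8e q 8 + _ + x = _
      rw [a7, a8]; omega
  by_cases g6 : x < 18 * q - 2
  · left
    refine ⟨7, by omega, ?_, ?_⟩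
    · rw [a7]; omega
    · rw [a7, w7]; omega
  by_cases g7 : x < 20 * q - 2
  · left
    refine ⟨2, by omega, ?_, ?_⟩
    · rw [a2]; omega
    · rw [a2, w2]; omega
  by_cases g8 : x < 23 * q - 3
  · right
    refine ⟨0, by omega, (67 * q - 10) - (1) - (44 * q - 7) - x, ?_, ?_⟩
    · rw [f0]; omega
    · change A8e q 0 + A8e q 1 + _ + x = _
      rw [a0, a1]; omega
  by_cases g9 : x < 27 * q - 4
  · right
    refine ⟨5, by omega, (67 * q - 10) - (29 * q - 4) - (11 * q - 1) - x, ?_, ?_⟩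
    · rw [f5]; omega
    · change A8e q 5 + A8e q 6 + _ + x = _
      rw [a5, a6]; omega
  by_cases g10 : x < 29 * q - 4
  · left
    refine ⟨4, by omega, ?_, ?_⟩
    · rw [a4]; omega
    · rw [a4, w4]; omega
  by_cases g11 : x < 31 * q - 4
  · left
    refine ⟨5, by omega, ?_, ?_⟩
    · rw [a5]; omega
    · rw [a5, w5]; omega
  by_cases g12 : x < 35 * q - 5
  · right
    refine ⟨3, by omega, (67 * q - 10) - (5 * q) - (27 * q - 4) - x, ?_, ?_⟩
    · rw [f3]; omega
    · change A8e q 3 + A8e q 4 + _ + x = _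
      rw [a3, a4]; omega
  by_cases g13 : x < 36 * q - 5
  · left
    refine ⟨8, by omega, ?_, ?_⟩
    · rw [a8]; omega
    · rw [a8, w8]; omega
  by_cases g14 : x < 40 * q - 6
  · right
    refine ⟨6, by omega, (67 * q - 10) - (11 * q - 1) - (16 * q - 2) - x, ?_, ?_⟩
    · rw [f6]; omega
    · change A8e q 6 + A8e q 7 + _ + x = _
      rw [a6, a7]; omega
  by_cases g15 : x < 44 * q - 7
  · right
    refine ⟨2, by omega, (67 * q - 10) - (18 * q - 2) - (5 * q) - x, ?_, ?_⟩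
    · rw [f2]; omega
    · change A8e q 2 + A8e q 3 + _ + x = _
      rw [a2, a3]; omega
  · left
    refine ⟨1, by omega, ?_, ?_⟩
    · rw [a1]; omega
    · rw [a1, w1]; omega

theorem emt8e (q : ℕ) (hq : 1 ≤ q) : IsEdgeMagicTotal (grid 8 (2 * q)) :=
  of_tiles 8 (2 * q) _ _ _ (by omega) (by omega) (by omega) (tiles8e q hq)

end Pool.Agent.H794.EMT
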