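import Pool.Agent.H794.EMT.Brick

/-!
# Grids with a side congruent to 3 modulo 6

Three interleaved regions of labels, one for each residue of the slice number modulo 3.
-/

set_option autoImplicit false

namespace Pool.Agent.H794.EMT

def cA (s t : ℕ) : ℕ := if t % 2 = 0 then s + t / 2 else t / 2
def cC (s t : ℕ) : ℕ := if t % 2 = 0 then t / 2 else s + 1 + t / 2
def cB (s t : ℕ) : ℕ := if t % 2 = 1 then s + t / 2 else t / 2 - 1

/-- Start of the second region. -/
def be (s k P : ℕ) : ℕ := P * (2 * s + 1) + (k + 1) + 2 * ((k + 1) / 2)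

/-- Start of the third region. -/
def ga (s k P : ℕ) : ℕ := be s k P + P * (2 * s) + k + 2 * ((k + 2) / 2)

/-- Starts of the slices. -/
def a3 (s k P d : ℕ) : ℕ :=
  if d = 0 then be s k P + P * (2 * s)
  else if d = 6 * s + 3 then P * (2 * s) + 2 * (k + 1) + (k + 1) / 2
  else if d % 3 = 1 then 1 + P * cA s (d / 3)
  else if d % 3 = 2 then ga s k P + P * cC s (d / 3)
  else be s k P + P * cB s (d / 3)

lemma a3_zero (s k P : ℕ) : a3 s k P 0 = be s k P + P * (2 * s) := by
  unfold a3; rw [if_pos rfl]

lemma a3_last (s k P : ℕ) :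
    a3 s k P (6 * s + 3) = P * (2 * s) + 2 * (k + 1) + (k + 1) / 2 := by
  unfold a3; rw [if_neg (by omega), if_pos rfl]

lemma a3_A (s k P t : ℕ) : a3 s k P (3 * t + 1) = 1 + P * cA s t := by
  unfold a3
  rw [if_neg (by omega), if_neg (by omega), if_pos (by omega)]
  rw [show (3 * t + 1) / 3 = t by omega]

lemma a3_C (s k P t : ℕ) : a3 s k P (3 * t + 2) = ga s k P + P * cC s t := by
  unfold a3
  rw [if_neg (by omega), if_neg (by omega), if_neg (by omega), if_pos (by omega)]
  rw [show (3 * t + 2) / 3 = t by omega]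

lemma a3_B (s k P t : ℕ) (h1 : 1 ≤ t) (h2 : t ≤ 2 * s) :
    a3 s k P (3 * t) = be s k P + P * cB s t := by
  unfold a3
  rw [if_neg (by omega), if_neg (by omega), if_neg (by omega), if_neg (by omega)]
  rw [show (3 * t) / 3 = t by omega]

lemma vs_zero (m n : ℕ) : vs m n 0 = (n + 1) / 2 := by unfold vs; rw [if_pos rfl]
lemma vs_last (m n : ℕ) (h : m ≠ 0) : vs m n m = n / 2 := by
  unfold vs; rw [if_neg h, if_pos rfl]
lemma vs_mid (m n d : ℕ) (h : d ≠ 0) (h' : d ≠ m) : vs m n d = n := by
  unfold vs; rw [if_neg h, if_neg h']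

lemma es_mid (m n d : ℕ) (h : d ≠ 0) (h' : d + 1 < m) : es m n d = n + n - 1 := by
  unfold es; rw [vs_mid m n d h (by omega), vs_mid m n (d + 1) (by omega) (by omega)]

theorem tiles3 (s k P : ℕ) (hP : P = 3 * k + 2) :
    Tiles (6 * s + 3) (k + 1) (a3 s k P) (be s k P + ga s k P + P * (3 * s))
      (ga s k P + P * (2 * s) + k) := by
  have hP2 : P * (2 * s + 1) = P * (2 * s) + P := by ring
  have hP3 : P * (3 * s) = P * s + P * (2 * s) := by ring
  have hbe : be s k P = P * (2 * s + 1) + (k + 1) + 2 * ((k + 1) / 2) := rfl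
  have hga : ga s k P = be s k P + P * (2 * s) + k + 2 * ((k + 2) / 2) := rfl
  intro z h1 h2
  by_cases rA : z < P * (2 * s) + 2 * (k + 1) + 2 * ((k + 1) / 2)
  · -- region A
    obtain ⟨q, r, hr, hz⟩ : ∃ q r, r < P ∧ z = P * q + r + 1 :=
      ⟨(z - 1) / P, (z - 1) % P, Nat.mod_lt _ (by omega), by
        have := Nat.div_add_mod (z - 1) P
        omega⟩
    have hq : q ≤ 2 * s := by
      by_contra hcon
      have : P * (2 * s + 1) ≤ P * q := Nat.mul_le_mul_left _ (by omega)
      omega
    by_cases hrn : r < k + 1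
    · left
      obtain ⟨t, ht, hct⟩ : ∃ t, t ≤ 2 * s ∧ cA s t = q := by
        by_cases hs : s ≤ q
        · exact ⟨2 * (q - s), by omega, by unfold cA; rw [if_pos (by omega)]; omega⟩
        · exact ⟨2 * q + 1, by omega, by unfold cA; rw [if_neg (by omega)]; omega⟩
      refine ⟨3 * t + 1, by omega, ?_, ?_⟩
      · rw [a3_A, hct]; omega
      · rw [a3_A, hct, vs_mid _ _ _ (by omega) (by omega)]; omega
    · by_cases hq2 : q < 2 * s
      · right
        obtain ⟨t, ht⟩ : ∃ t, t + q + 1 = 2 * s := ⟨2 * s - 1 - q, by omega⟩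
        have hidx : cC s t + cB s (t + 1) + q + 1 = 3 * s := by
          unfold cC cB
          rcases Nat.mod_two_eq_zero_or_one t with h | h
          · rw [if_pos h, if_pos (by omega)]; omega
          · rw [if_neg (by omega), if_neg (by omega)]; omega
        have hsum : P * cC s t + P * cB s (t + 1) + P * q + P = P * (3 * s) := by
          rw [← hidx]; ring
        refine ⟨3 * t + 2, by omega, 3 * k + 1 - r, ?_, ?_⟩
        · rw [es_mid _ _ _ (by omega) (by omega)]; omega
        · rw [a3_C, show 3 * t + 2 + 1 = 3 * (t + 1) by ring, a3_B _ _ _ _ (by omega) (by omega)]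
          omega
      · have hq3 : q = 2 * s := by omega
        subst hq3
        by_cases hr2 : r < 2 * (k + 1) - 1 + (k + 1) / 2
        · right
          have hc : cC s (2 * s) = s := by unfold cC; rw [if_pos (by omega)]; omega
          refine ⟨3 * (2 * s) + 2, by omega, 2 * k + (k + 1) / 2 - r, ?_, ?_⟩
          · unfold es
            rw [vs_mid _ _ _ (by omega) (by omega),
              show 3 * (2 * s) + 2 + 1 = 6 * s + 3 by ring, vs_last _ _ (by omega)]
            omega
          · rw [a3_C, hc, show 3 * (2 * s) + 2 + 1 = 6 * s + 3 by ring, a3_last]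
            omega
        · left
          refine ⟨6 * s + 3, by omega, ?_, ?_⟩
          · rw [a3_last]; omega
          · rw [a3_last, vs_last _ _ (by omega)]; omega
  · by_cases rB : z < be s k P + P * (2 * s) + (k + 2) / 2
    · -- region B
      obtain ⟨q, r, hr, hz⟩ : ∃ q r, r < P ∧
          z = P * q + r + (P * (2 * s) + 2 * (k + 1) + 2 * ((k + 1) / 2)) :=
        ⟨(z - (P * (2 * s) + 2 * (k + 1) + 2 * ((k + 1) / 2))) / P,
          (z - (P * (2 * s) + 2 * (k + 1) + 2 * ((k + 1) / 2))) % P, Nat.mod_lt _ (by omega), by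
          have := Nat.div_add_mod (z - (P * (2 * s) + 2 * (k + 1) + 2 * ((k + 1) / 2))) P
          omega⟩
      have hq : q ≤ 2 * s := by
        by_contra hcon
        have : P * (2 * s + 1) ≤ P * q := Nat.mul_le_mul_left _ (by omega)
        omega
      by_cases hrn : r < 2 * k + 1
      · right
        obtain ⟨t, ht⟩ : ∃ t, t + q = 2 * s := ⟨2 * s - q, by omega⟩
        have hidx : cA s t + cC s t + q = 3 * s := by
          unfold cA cC
          rcases Nat.mod_two_eq_zero_or_one t with h | h
          · rw [if_pos h, if_pos h]; omega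
          · rw [if_neg (by omega), if_neg (by omega)]; omega
        have hsum : P * cA s t + P * cC s t + P * q = P * (3 * s) := by
          rw [← hidx]; ring
        refine ⟨3 * t + 1, by omega, 2 * k - r, ?_, ?_⟩
        · rw [es_mid _ _ _ (by omega) (by omega)]; omega
        · rw [a3_A, show 3 * t + 1 + 1 = 3 * t + 2 by ring, a3_C]
          omega
      · left
        by_cases hq2 : q < 2 * s
        · obtain ⟨t, ht1, ht, hct⟩ : ∃ t, 1 ≤ t ∧ t ≤ 2 * s ∧ cB s t = q := by
            by_cases hs : s ≤ q
            · exact ⟨2 * (q - s) + 1, by omega, by omega, by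
                unfold cB; rw [if_pos (by omega)]; omega⟩
            · exact ⟨2 * q + 2, by omega, by omega, by
                unfold cB; rw [if_neg (by omega)]; omega⟩
          refine ⟨3 * t, by omega, ?_, ?_⟩
          · rw [a3_B _ _ _ _ ht1 ht, hct]; omega
          · rw [a3_B _ _ _ _ ht1 ht, hct, vs_mid _ _ _ (by omega) (by omega)]; omega
        · have hq3 : q = 2 * s := by omega
          subst hq3
          refine ⟨0, by omega, ?_, ?_⟩
          · rw [a3_zero]; omega
          · rw [a3_zero, vs_zero]; omega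
    · by_cases rC : z < ga s k P
      · -- the first edge block
        right
        have hc : cA s 0 = s := by unfold cA; rw [if_pos (by omega)]; omega
        refine ⟨0, by omega, ga s k P - 1 - z, ?_, ?_⟩
        · unfold es
          rw [vs_zero, vs_mid _ _ _ (by omega) (by omega)]
          omega
        · rw [a3_zero, show 0 + 1 = 3 * 0 + 1 by ring, a3_A, hc]
          omega
      · -- region C
        obtain ⟨q, r, hr, hz⟩ : ∃ q r, r < P ∧ z = P * q + r + ga s k P :=
          ⟨(z - ga s k P) / P, (z - ga s k P) % P, Nat.mod_lt _ (by omega), by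
            have := Nat.div_add_mod (z - ga s k P) P
            omega⟩
        have hq : q ≤ 2 * s := by
          by_contra hcon
          have : P * (2 * s + 1) ≤ P * q := Nat.mul_le_mul_left _ (by omega)
          omega
        by_cases hrn : r < k + 1
        · left
          obtain ⟨t, ht, hct⟩ : ∃ t, t ≤ 2 * s ∧ cC s t = q := by
            by_cases hs : q ≤ s
            · exact ⟨2 * q, by omega, by unfold cC; rw [if_pos (by omega)]; omega⟩
            · exact ⟨2 * (q - s - 1) + 1, by omega, by
                unfold cC; rw [if_neg (by omega)]; omega⟩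
          refine ⟨3 * t + 2, by omega, ?_, ?_⟩
          · rw [a3_C, hct]; omega
          · rw [a3_C, hct, vs_mid _ _ _ (by omega) (by omega)]; omega
        · right
          have hq2 : q < 2 * s := by
            by_contra hcon
            have hq3 : q = 2 * s := by omega
            subst hq3
            omega
          obtain ⟨t, ht⟩ : ∃ t, t + q = 2 * s := ⟨2 * s - q, by omega⟩
          have hidx : cB s t + cA s t + q + 1 = 3 * s := by
            unfold cA cB
            rcases Nat.mod_two_eq_zero_or_one t with h | h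
            · rw [if_neg (by omega), if_pos h]; omega
            · rw [if_pos h, if_neg (by omega)]; omega
          have hsum : P * cB s t + P * cA s t + P * q + P = P * (3 * s) := by
            rw [← hidx]; ring
          refine ⟨3 * t, by omega, 3 * k + 1 - r, ?_, ?_⟩
          · rw [es_mid _ _ _ (by omega) (by omega)]; omega
          · rw [a3_B _ _ _ _ (by omega) (by omega), a3_A]
            omega

/-- `P_{6s+3} □ P_n` is edge-magic total for every `n`. -/
theorem three_mod_six (s n : ℕ) (hn : 1 ≤ n) : IsEdgeMagicTotal (grid (6 * s + 3) n) := by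
  obtain ⟨k, rfl⟩ : ∃ k, n = k + 1 := ⟨n - 1, by omega⟩
  refine of_tiles (6 * s + 3) (k + 1) _ _ _ (by omega) (by omega) ?_
    (tiles3 s k (3 * k + 2) rfl)
  have e : (6 * s + 3) * (k + 1) + ((6 * s + 3 - 1) * (k + 1) + (6 * s + 3) * (k + 1 - 1)) =
      (3 * k + 2) * (2 * s + 1) + 2 * ((3 * k + 2) * (2 * s)) + 5 * k + 3 := by
    rw [show 6 * s + 3 - 1 = 6 * s + 2 by omega, show k + 1 - 1 = k by omega]; ring
  rw [e]
  unfold ga be
  omega

end Pool.Agent.H794.EMT
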